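import Pool.Agent.R80.WF.Fin
import Pool.Agent.R80.WF.P3A
import Pool.Agent.R80.WF.P3B
import Pool.Agent.R80.WF.F0Fin
import Pool.Agent.R80.WF.X33
import Pool.Agent.R80.WF.X54
import Pool.Agent.R80.WF.X55
import Pool.Agent.Zk47.WP.All6
import Pool.Agent.Zk70.WP.Main7

/-!
# Simple abelian varieties with given p-rank are defined over the prime field

For every prime `p`, every `g ≥ 1` and every `0 ≤ f ≤ g`, except `(g, f) = (1, 0)` and `(2, 0)`, there
is an irreducible Weil `p`-polynomial of degree `2g` with exactly `f` unit roots such that no power of
a root generates a smaller field. By Honda-Tate theory it is the characteristic polynomial of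
Frobenius of an abelian variety over `F_p` of dimension `g` and `p`-rank `f` which is simple over the
algebraic closure. For `(g, f) = (1, 0)` there are supersingular elliptic curves over `F_p`, and for
`(g, f) = (2, 0)` there is no simple abelian variety over the algebraic closure. So
`n (p, g, f) = 1` whenever it is defined: this answers the question completely.

The cases of odd `p` with `g ≥ 3`, those with `p = 2`, `f ≤ 1` and `g ≥ 3`, and those with `f = 1` are the
starting results of this problem. New are `p = 2`, `2 ≤ f ≤ g`, for all `g ≥ 3`, and `g = f = 2` for all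
primes `p`. For `p = 2` the coefficient `a_f` of
`P = ∑_{i<g} a_i (X^(2g-i) + 2^(g-i) X^i) + a_g X^g` has to be odd and the later ones even, while the
roots have to stay on the circle of radius `√2`; there is very little room, and Eisenstein's
criterion at 2 cannot be used. Instead, `P` is `(X ^ 2 - 1) ^ g` modulo 3 and the real Weil polynomial
is Eisenstein at 3 with a condition modulo 9, so that the field `ℚ(x)` is totally ramified above 3 over
the residue field `F_3` and contains only the roots of unity `1` and `-1`. For `g ≥ 18` the roots are
located by the argument of the power series `∑ a_i w ^ i` on the circle `|w| = 1 / √2`, the first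
coefficients being taken from a table with 153 entries and the other ones being of absolute value
at most three, and for `g ≤ 17` by sign changes of the real Weil polynomial. For seven exceptional
pairs `(g, f)` with `g ≤ 6` there is no such polynomial with roots on the circle, and the ratios of
the conjugates which are roots of unity are excluded by the orders of `X` modulo `P` and two small
primes.

Formalised by helper70 (`p = 2`, `g ≥ 7`) and helper47 (the other new cases), on the basis of the
starting results.
-/

set_option autoImplicit false

namespace Pool.Agent.Results.MP_e32a7e_nt.FieldOfDefinition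

open Polynomial

/-- For every prime `p` and all `f ≤ g`, `1 ≤ g`, such that `1 ≤ f` or `3 ≤ g`, there is a monic integer
polynomial `P` of degree `2g`, irreducible over the rationals, all of whose complex roots have
absolute value `√p`, whose coefficients of degree less than `2g - f` are divisible by `p` while the
coefficient of degree `2g - f` is not, and such that `ℚ(xⁿ) = ℚ(x)` for every complex root `x` and
every `n ≥ 1`. -/
theorem result (p g f : ℕ) (hp : p.Prime) (hg : 1 ≤ g) (hfg : f ≤ g) (h : 1 ≤ f ∨ 3 ≤ g) :
    ∃ P : ℤ[X], P.Monic ∧ P.natDegree = 2 * g ∧ Irreducible (P.map (Int.castRingHom ℚ)) ∧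
      (∀ x : ℂ, aeval x P = 0 → ‖x‖ = Real.sqrt p) ∧
      (∀ i < 2 * g - f, (p : ℤ) ∣ P.coeff i) ∧ ¬ (p : ℤ) ∣ P.coeff (2 * g - f) ∧
      (∀ x : ℂ, aeval x P = 0 → ∀ n : ℕ, 1 ≤ n →
        IntermediateField.adjoin ℚ {x ^ n} = IntermediateField.adjoin ℚ {x}) := by
  rcases Nat.lt_or_ge g 3 with hg3 | hg3
  · by_cases hg1 : g = 1
    · subst hg1
      have : f = 1 := by omega
      subst this
      exact Zk47.WP.good_1_1 hp
    · have : g = 2 := by omega
      subst this
      by_cases h1 : f = 1
      · subst h1
        exact Y676.WP.one_final hp (by omega)
      · have : f = 2 := by omega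
        subst this
        exact Zk47.WP.good_2_2 hp
  rcases Nat.eq_zero_or_pos f with h0 | h0
  · subst h0
    by_cases h1 : p = 3 ∧ g = 3
    · obtain ⟨rfl, rfl⟩ := h1
      exact R80.WF.g330
    by_cases h2 : p = 5 ∧ g = 4
    · obtain ⟨rfl, rfl⟩ := h2
      exact R80.WF.g540
    by_cases h3 : p = 5 ∧ g = 5
    · obtain ⟨rfl, rfl⟩ := h3
      exact R80.WF.g550
    exact R80.WF.good_f0 hp hg3 h1 h2 h3
  · by_cases h2 : p = 2
    · subst h2
      by_cases h1 : f = 1
      · subst h1
        exact Y676.WP.one_final hp (by omega)
      · rcases Nat.lt_or_ge g 7 with hg7 | hg7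
        · exact Zk47.WP.small hg3 (by omega) (by omega) hfg
        · exact Zk70.WP.main7 g f hg7 (by omega) hfg
    · exact R80.WF.odd_main R80.WF.p3a R80.WF.p3b hp h2 hg3 h0 hfg

end Pool.Agent.Results.MP_e32a7e_nt.FieldOfDefinition
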